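import Pool.Agent.helper73.BS.Spec

/-! # MP_a2a22c, row EI -/

set_option autoImplicit false

namespace Pool.Agent.BS

open Matrix Module Pool.Agent.UG Pool.Agent.H48SL Pool.Agent.SHL

theorem EI (hLG : UG.LG_stmt) : EI_stmt := by
  intro n X Y hX hY h
  obtain ⟨P, _, _, hP⟩ := hLG n
  rw [← hP X hX, ← hP Y hY, h]

end Pool.Agent.BS
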