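import Pool.Agent.helper73.BS.Spec

/-! # MP_a2a22c, row JE -/

set_option autoImplicit false

namespace Pool.Agent.BS

open Matrix Module Pool.Agent.UG Pool.Agent.H48SL Pool.Agent.SHL

/-- the inverse is a polynomial -/
lemma JE_inv {n : ℕ} (s : MQ n) (hs : IsUnit s.det) : s⁻¹ ∈ Algebra.adjoin ℚ {s} := by
  have h1 : Polynomial.aeval s s.charpoly = 0 := Matrix.aeval_self_charpoly s
  have h2 : s.charpoly.coeff 0 ≠ 0 := by
    intro h
    have h3 := Matrix.det_eq_sign_charpoly_coeff s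
    rw [h, mul_zero] at h3
    rw [h3] at hs
    exact not_isUnit_zero hs
  set c := s.charpoly.coeff 0 with hc
  have h3 : s * Polynomial.aeval s s.charpoly.divX = -(algebraMap ℚ (MQ n) c) := by
    have h4 := Polynomial.X_mul_divX_add s.charpoly
    rw [← h4, map_add, map_mul, Polynomial.aeval_X, Polynomial.aeval_C] at h1
    exact eq_neg_of_add_eq_zero_left h1
  have h5 : s⁻¹ = (-c⁻¹) • Polynomial.aeval s s.charpoly.divX := by
    apply Matrix.inv_eq_right_inv
    rw [mul_smul_comm, h3, Algebra.algebraMap_eq_smul_one, smul_neg, smul_smul, neg_mul,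
      inv_mul_cancel₀ h2, neg_smul, one_smul, neg_neg]
  rw [h5]
  exact Subalgebra.smul_mem _ (Polynomial.aeval_mem_adjoin_singleton ℚ s) _

lemma JE_nil {n : ℕ} {m : MQ n} (h : IsNilpotent (Matrix.toLin' m)) : IsNilpotent m := by
  obtain ⟨k, hk⟩ := h
  refine ⟨k, ?_⟩
  apply Matrix.toLin'.injective
  rw [Matrix.toLin'_pow, hk, map_zero]

lemma JE_nil' {n : ℕ} {m : MQ n} (h : IsNilpotent m) : IsNilpotent (Matrix.toLin' m) := by
  obtain ⟨k, hk⟩ := h
  exact ⟨k, by rw [← Matrix.toLin'_pow, hk, map_zero]⟩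

lemma JE_com {n : ℕ} {a b : MQ n} (h : Commute a b) :
    Commute (Matrix.toLin' a) (Matrix.toLin' b) := by
  show Matrix.toLin' a * Matrix.toLin' b = Matrix.toLin' b * Matrix.toLin' a
  rw [Module.End.mul_eq_comp, Module.End.mul_eq_comp, ← Matrix.toLin'_mul, ← Matrix.toLin'_mul, h.eq]

/-- `exp X = 1 + X U` -/
lemma JE_exp {n : ℕ} {X : MQ n} (hX : IsNilpotent X) :
    ∃ U ∈ Algebra.adjoin ℚ {X}, IsNilpotent.exp X - 1 = X * U := by
  obtain ⟨m, hm⟩ := hX
  rcases Nat.eq_zero_or_pos m with rfl | hm0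
  · rw [pow_zero] at hm
    refine ⟨0, zero_mem _, ?_⟩
    have h6 : ∀ Z : MQ n, Z = 0 := fun Z => by rw [← one_mul Z, hm, zero_mul]
    rw [h6 (IsNilpotent.exp X - 1), mul_zero]
  · obtain ⟨m', rfl⟩ := Nat.exists_eq_succ_of_ne_zero hm0.ne'
    refine ⟨∑ i ∈ Finset.range m', (((i + 1).factorial : ℚ)⁻¹) • X ^ i, ?_, ?_⟩
    · exact sum_mem fun i _ => Subalgebra.smul_mem _
        (pow_mem (Algebra.self_mem_adjoin_singleton ℚ X) i) _
    · rw [IsNilpotent.exp_eq_sum hm, Finset.sum_range_succ', Finset.mul_sum]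
      simp only [Nat.factorial_zero, Nat.cast_one, inv_one, pow_zero, one_smul,
        add_sub_cancel_right]
      apply Finset.sum_congr rfl
      intro i _
      rw [mul_smul_comm, pow_succ']

lemma JE_adj {n : ℕ} {a b x : MQ n} (h : Commute a b) (hx : x ∈ Algebra.adjoin ℚ {b}) :
    Commute a x := by
  have h1 : Algebra.adjoin ℚ {b} ≤ Subalgebra.centralizer ℚ {a} := by
    apply Algebra.adjoin_le
    intro z hz
    rw [Set.mem_singleton_iff] at hz
    subst hz
    exact (Subalgebra.mem_centralizer_iff ℚ).2 fun g hg => by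
      rw [Set.mem_singleton_iff] at hg
      subst hg
      exact h.eq
  exact (Subalgebra.mem_centralizer_iff ℚ).1 (h1 hx) a rfl

theorem JE (hLG : UG.LG_stmt) : JE_stmt := by
  intro n y hy
  obtain ⟨P, _, hP1, hP2⟩ := hLG n
  obtain ⟨m0, hm0, s0, hs0, hm1, hs1, hsum⟩ :=
    Module.End.exists_isNilpotent_isSemisimple (f := Matrix.toLin' y)
  have hlift : ∀ g ∈ Algebra.adjoin ℚ {Matrix.toLin' y}, ∃ m ∈ Algebra.adjoin ℚ {y},
      Matrix.toLin' m = g := by
    intro g hg
    rw [Algebra.adjoin_singleton_eq_range_aeval] at hg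
    obtain ⟨p, hp⟩ := hg
    refine ⟨Polynomial.aeval y p, Polynomial.aeval_mem_adjoin_singleton ℚ y, ?_⟩
    rw [← hp]
    have := Polynomial.aeval_algHom_apply (Matrix.toLinAlgEquiv' (R := ℚ) (n := Fin n)).toAlgHom y p
    exact this.symm
  obtain ⟨m, hm, rfl⟩ := hlift m0 hm0
  obtain ⟨s, hs, rfl⟩ := hlift s0 hs0
  have hmn := JE_nil hm1
  have hys : y = m + s := by
    apply Matrix.toLin'.injective
    rw [map_add]
    exact hsum
  have hcy : ∀ x ∈ Algebra.adjoin ℚ {y}, Commute y x := fun x hx => JE_adj (Commute.refl y) hx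
  have hcc : ∀ a ∈ Algebra.adjoin ℚ {y}, ∀ b ∈ Algebra.adjoin ℚ {y}, Commute a b := by
    intro a ha b hb
    exact JE_adj (hcy a ha).symm hb
  have hsu : IsUnit s := by
    have h1 : s = y + (-m) := by rw [hys]; abel
    rw [h1]
    exact hmn.neg.isUnit_add_left_of_commute ((Matrix.isUnit_iff_isUnit_det y).2 hy)
      ((hcy m hm).symm.neg_left)
  have hsd : IsUnit s.det := (Matrix.isUnit_iff_isUnit_det s).1 hsu
  have hle : Algebra.adjoin ℚ {s} ≤ Algebra.adjoin ℚ {y} := by
    apply Algebra.adjoin_le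
    intro z hz
    rw [Set.mem_singleton_iff] at hz
    subst hz
    exact hs
  have hsi : s⁻¹ ∈ Algebra.adjoin ℚ {y} := hle (JE_inv s hsd)
  have hsm : s⁻¹ * m ∈ Algebra.adjoin ℚ {y} := mul_mem hsi hm
  have hsmn : IsNilpotent (s⁻¹ * m) := (hcc _ hsi _ hm).isNilpotent_mul_left hmn
  set N := Polynomial.aeval (s⁻¹ * m) P with hN
  have hNm : N ∈ Algebra.adjoin ℚ {y} := by
    have h1 : Algebra.adjoin ℚ {s⁻¹ * m} ≤ Algebra.adjoin ℚ {y} := by
      apply Algebra.adjoin_le
      intro z hz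
      rw [Set.mem_singleton_iff] at hz
      subst hz
      exact hsm
    exact h1 (Polynomial.aeval_mem_adjoin_singleton ℚ _)
  have hexp : IsNilpotent.exp N = 1 + s⁻¹ * m := hP1 _ hsmn
  have hyexp : y = s * IsNilpotent.exp N := by
    rw [hexp, mul_add, mul_one, ← mul_assoc, Matrix.mul_nonsing_inv s hsd, one_mul, hys]
    abel
  have hNn : IsNilpotent N := by
    have h1 : N = (s⁻¹ * m) * Polynomial.aeval (s⁻¹ * m) P.divX + algebraMap ℚ (MQ n) (P.coeff 0) := by
      conv_lhs => rw [hN, ← Polynomial.X_mul_divX_add P]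
      rw [map_add, map_mul, Polynomial.aeval_X, Polynomial.aeval_C]
    have h2 : P.coeff 0 = 0 := by
      have h3 : Polynomial.X ^ 2 ∣ P - Polynomial.X := by assumption
      obtain ⟨Q, hQ⟩ := h3
      have h4 : P = Polynomial.X ^ 2 * Q + Polynomial.X := by rw [← hQ]; ring
      rw [h4, Polynomial.coeff_zero_eq_eval_zero]
      simp
    rw [h2, map_zero, add_zero] at h1
    rw [h1]
    exact (JE_adj (Commute.refl _) (Polynomial.aeval_mem_adjoin_singleton ℚ _)).isNilpotent_mul_right hsmn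
  refine ⟨s, N, ⟨hNn, hcc s hs N hNm, hs1, hyexp⟩, hs, hNm, ?_⟩
  rintro s' N' ⟨hN', hc', hs', hy'⟩
  obtain ⟨U, hU, hexpU⟩ := JE_exp hN'
  have hce : Commute s' (IsNilpotent.exp N') := by
    have h1 : IsNilpotent.exp N' = 1 + N' * U := by rw [← hexpU]; abel
    rw [h1]
    exact (Commute.one_right s').add_right (hc'.mul_right (JE_adj hc' hU))
  have hs'y : Commute s' y := by
    rw [hy']
    exact (Commute.refl s').mul_right hce
  have hm' : IsNilpotent (s' * (IsNilpotent.exp N' - 1)) := by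
    rw [hexpU]
    have h1 : Commute s' (N' * U) := hc'.mul_right (JE_adj hc' hU)
    exact h1.isNilpotent_mul_left ((JE_adj (Commute.refl N') hU).isNilpotent_mul_right hN')
  have hsum' : y = s' * (IsNilpotent.exp N' - 1) + s' := by
    rw [mul_sub, mul_one, sub_add_cancel]
    exact hy'
  have hcm' : Commute (s' * (IsNilpotent.exp N' - 1)) s' :=
    (Commute.refl s').mul_left (hce.symm.sub_left (Commute.one_left s'))
  have huniq := Module.End.isNilpotent_isSemisimple_unique hm1 hs1 (JE_nil' hm') hs'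
    (JE_com (hcc m hm s hs)) (JE_com hcm') (by rw [← map_add, ← map_add, ← hys, ← hsum'])
  have hss : s = s' := Matrix.toLin'.injective huniq.2
  subst hss
  refine ⟨rfl, ?_⟩
  have hee : IsNilpotent.exp N' = IsNilpotent.exp N := by
    have h1 : s * IsNilpotent.exp N' = s * IsNilpotent.exp N := by rw [← hy', ← hyexp]
    have h2 := congrArg (fun x => s⁻¹ * x) h1
    simpa only [← mul_assoc, Matrix.nonsing_inv_mul s hsd, one_mul] using h2
  rw [← hP2 N' hN', hee, hP2 N hNn]

end Pool.Agent.BS
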