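import Pool.Agent.helper73.BS.Spec

/-! # MP_a2a22c, row RL -/

set_option autoImplicit false

namespace Pool.Agent.BS

open Matrix Module Pool.Agent.UG Pool.Agent.H48SL Pool.Agent.SHL

/-- composition of a polynomial with a polynomial curve -/
lemma RL_comp {n : ℕ} {f : ℚ → MQ n} (hf : PC f) (F : MvPolynomial (Fin n × Fin n) ℚ) :
    ∃ p : Polynomial ℚ, ∀ t, MvPolynomial.eval (fun a : Fin n × Fin n => f t a.1 a.2) F = p.eval t := by
  choose p hp using hf
  refine ⟨MvPolynomial.aeval (fun a : Fin n × Fin n => p a.1 a.2) F, fun t => ?_⟩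
  induction F using MvPolynomial.induction_on with
  | C c => simp
  | add F G hF hG => rw [map_add, map_add, Polynomial.eval_add, hF, hG]
  | mul_X F a hF => rw [map_mul, map_mul, Polynomial.eval_mul, hF, MvPolynomial.eval_X,
      MvPolynomial.aeval_X, hp]

/-- a polynomial curve which is in the closure at all natural numbers is in the closure -/
lemma RL_curve {n : ℕ} {f : ℚ → MQ n} (hf : PC f) (S : Set (MQ n))
    (h : ∀ j : ℕ, f (j : ℚ) ∈ ZQ S) (t : ℚ) : f t ∈ ZQ S := by
  intro F hF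
  obtain ⟨p, hp⟩ := RL_comp hf F
  have h1 : p = 0 := by
    apply Polynomial.eq_of_infinite_eval_eq
    apply (Set.infinite_range_of_injective (Nat.cast_injective (R := ℚ))).mono
    rintro _ ⟨j, rfl⟩
    show Polynomial.eval (j : ℚ) p = Polynomial.eval (j : ℚ) 0
    rw [← hp, Polynomial.eval_zero]
    exact h j F hF
  rw [hp, h1, Polynomial.eval_zero]

lemma RL_poly {n : ℕ} {W : ℕ → Submodule ℚ (VQ n)} (hW : Monotone W) {X : MQ n}
    (hX : X ∈ fil W 1) (Q : Polynomial ℚ) (hQ : Q.coeff 0 = 0) :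
    Polynomial.aeval X Q ∈ fil W 1 := by
  have hpow : ∀ i : ℕ, X ^ (i + 1) ∈ fil W 1 := by
    intro i
    induction i with
    | zero => rwa [zero_add, pow_one]
    | succ i ih =>
      rw [pow_succ]
      exact fil_anti hW 1 (fil_mul ih hX)
  rw [Polynomial.aeval_eq_sum_range]
  apply Submodule.sum_mem
  intro i _
  cases i with
  | zero => rw [hQ, zero_smul]; exact Submodule.zero_mem _
  | succ i => exact Submodule.smul_mem _ _ (hpow i)

lemma RL_exp {n : ℕ} {W : ℕ → Submodule ℚ (VQ n)} {k : ℕ} (hW : Monotone W) (h0 : W 0 = ⊥)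
    (hk : W k = ⊤) {X : MQ n} (hX : X ∈ fil W 1) : IsNilpotent.exp X - 1 ∈ fil W 1 := by
  obtain ⟨m, hm⟩ := fil_one_nil h0 hk hX
  have hpow : ∀ i : ℕ, X ^ (i + 1) ∈ fil W 1 := by
    intro i
    induction i with
    | zero => rwa [zero_add, pow_one]
    | succ i ih =>
      rw [pow_succ]
      exact fil_anti hW 1 (fil_mul ih hX)
  rcases Nat.eq_zero_or_pos m with rfl | hm0
  · rw [pow_zero] at hm
    have h6 : ∀ Z : MQ n, Z = 0 := fun Z => by rw [← one_mul Z, hm, zero_mul]
    rw [h6 (IsNilpotent.exp X - 1)]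
    exact Submodule.zero_mem _
  · obtain ⟨m', rfl⟩ := Nat.exists_eq_succ_of_ne_zero hm0.ne'
    rw [IsNilpotent.exp_eq_sum hm, Finset.sum_range_succ']
    simp only [Nat.factorial_zero, Nat.cast_one, inv_one, pow_zero, one_smul,
      add_sub_cancel_right]
    apply Submodule.sum_mem
    intro i _
    exact Submodule.smul_mem _ _ (hpow i)

theorem RL (hLG : UG.LG_stmt) (hLIN : UG.LIN_stmt) (hEXJ : UG.EXJ_stmt) (hZG : ZG_stmt) :
    RL_stmt := by
  intro n P 𝔲 k W hFS X Y hX hY
  have h0 := hFS.bot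
  have hk := hFS.top
  have hW := hFS.mono
  obtain ⟨Q, hQ0, hQ1, hQ2⟩ := hLG n
  have hQc : Q.coeff 0 = 0 := by
    obtain ⟨R, hR⟩ := hQ0
    have h4 : Q = Polynomial.X ^ 2 * R + Polynomial.X := by rw [← hR]; ring
    rw [h4, Polynomial.coeff_zero_eq_eval_zero]
    simp
  have hone : (1 : MQ n) ∈ ZQ (mz P) := subset_ZQ _ ⟨1, P.one_mem, qg_one.symm⟩
  have hmain := hLIN n (fil W) (fun i j X hX Y hY => fil_mul hX hY) (fil_anti hW)
    ⟨k, fil_bot h0 hk⟩ {X | Rad P W X} (fun X hX => (mem_fil_one h0).2 hX.1) ?_ ?_ ?_ X hX Y hY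
  · exact hmain
  · refine ⟨fun i w _ => ?_, fun t => ?_⟩
    · rw [Matrix.zero_mulVec]
      exact Submodule.zero_mem _
    · rw [smul_zero, IsNilpotent.exp_zero]
      exact hone
  · intro X hX t
    refine ⟨fun i w hw => ?_, fun s => ?_⟩
    · rw [Matrix.smul_mulVec]
      exact Submodule.smul_mem _ _ (hX.1 i w hw)
    · rw [smul_smul]
      exact hX.2 (s * t)
  · intro X hX Y hY
    have hXf : X ∈ fil W 1 := (mem_fil_one h0).2 hX.1
    have hYf : Y ∈ fil W 1 := (mem_fil_one h0).2 hY.1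
    have hM : IsNilpotent.exp X * IsNilpotent.exp Y - 1 ∈ fil W 1 := by
      have h1 := RL_exp hW h0 hk hXf
      have h2 := RL_exp hW h0 hk hYf
      have h3 := fil_anti hW 1 (fil_mul h1 h2)
      have h4 : IsNilpotent.exp X * IsNilpotent.exp Y - 1 =
          (IsNilpotent.exp X - 1) * (IsNilpotent.exp Y - 1) + (IsNilpotent.exp X - 1) +
            (IsNilpotent.exp Y - 1) := by noncomm_ring
      rw [h4]
      exact Submodule.add_mem _ (Submodule.add_mem _ h3 h1) h2
    set Z := Polynomial.aeval (IsNilpotent.exp X * IsNilpotent.exp Y - 1) Q with hZ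
    have hZf : Z ∈ fil W 1 := RL_poly hW hM Q hQc
    have hZn : IsNilpotent Z := fil_one_nil h0 hk hZf
    have hZe : IsNilpotent.exp Z = IsNilpotent.exp X * IsNilpotent.exp Y := by
      rw [hZ, hQ1 _ (fil_one_nil h0 hk hM)]
      abel
    refine ⟨Z, ⟨(mem_fil_one h0).1 hZf, ?_⟩, hZe⟩
    obtain ⟨hj, _, _, _, _, _, hpc, _⟩ := hEXJ n Z hZn
    apply RL_curve hpc
    intro j
    have hXe : IsNilpotent.exp X ∈ ZQ (mz P) := by
      have := hX.2 1
      rwa [one_smul] at this
    have hYe : IsNilpotent.exp Y ∈ ZQ (mz P) := by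
      have := hY.2 1
      rwa [one_smul] at this
    rw [← hj j, hZe]
    have hXY := (hZG n P).1 _ hXe _ hYe
    induction j with
    | zero => rw [pow_zero]; exact hone
    | succ j ih => rw [pow_succ]; exact (hZG n P).1 _ ih _ hXY

end Pool.Agent.BS
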