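import Pool.Agent.helper73.BS.Spec

/-! # MP_a2a22c, row ZE -/

set_option autoImplicit false

namespace Pool.Agent.BS

open Matrix Module Pool.Agent.UG Pool.Agent.H48SL Pool.Agent.SHL

/-- polynomial functions of a matrix with values in matrices -/
def ZE_PM {n : ℕ} (f : MQ n → MQ n) : Prop :=
  ∀ i j, ∃ F : MvPolynomial (Fin n × Fin n) ℚ, ∀ x : MQ n,
    MvPolynomial.eval (fun a : Fin n × Fin n => x a.1 a.2) F = f x i j

lemma ZE_const {n : ℕ} (M : MQ n) : ZE_PM (fun _ : MQ n => M) :=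
  fun i j => ⟨MvPolynomial.C (M i j), fun _ => MvPolynomial.eval_C _⟩

lemma ZE_id {n : ℕ} : ZE_PM (fun x : MQ n => x) :=
  fun i j => ⟨MvPolynomial.X (i, j), fun _ => MvPolynomial.eval_X _⟩

lemma ZE_add {n : ℕ} {f g : MQ n → MQ n} (hf : ZE_PM f) (hg : ZE_PM g) :
    ZE_PM (fun x => f x + g x) := by
  intro i j
  obtain ⟨F, hF⟩ := hf i j
  obtain ⟨G, hG⟩ := hg i j
  exact ⟨F + G, fun x => by rw [map_add, hF, hG]; rfl⟩

lemma ZE_sub {n : ℕ} {f g : MQ n → MQ n} (hf : ZE_PM f) (hg : ZE_PM g) :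
    ZE_PM (fun x => f x - g x) := by
  intro i j
  obtain ⟨F, hF⟩ := hf i j
  obtain ⟨G, hG⟩ := hg i j
  exact ⟨F - G, fun x => by rw [map_sub, hF, hG]; rfl⟩

lemma ZE_mul {n : ℕ} {f g : MQ n → MQ n} (hf : ZE_PM f) (hg : ZE_PM g) :
    ZE_PM (fun x => f x * g x) := by
  intro i j
  choose F hF using hf
  choose G hG using hg
  refine ⟨∑ k, F i k * G k j, fun x => ?_⟩
  show _ = (f x * g x) i j
  rw [map_sum, Matrix.mul_apply]
  apply Finset.sum_congr rfl
  intro k _
  rw [map_mul, hF, hG]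

lemma ZE_pow {n : ℕ} {f : MQ n → MQ n} (hf : ZE_PM f) (k : ℕ) : ZE_PM (fun x => f x ^ k) := by
  induction k with
  | zero => simp only [pow_zero]; exact ZE_const 1
  | succ k ih => simp only [pow_succ]; exact ZE_mul ih hf

lemma ZE_smul {n : ℕ} {f : MQ n → MQ n} (hf : ZE_PM f) (c : ℚ) : ZE_PM (fun x => c • f x) := by
  intro i j
  obtain ⟨F, hF⟩ := hf i j
  exact ⟨MvPolynomial.C c * F, fun x => by rw [map_mul, MvPolynomial.eval_C, hF]; rfl⟩

lemma ZE_sum {n : ℕ} {κ : Type} (s : Finset κ) (f : κ → MQ n → MQ n)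
    (hf : ∀ k ∈ s, ZE_PM (f k)) : ZE_PM (fun x => ∑ k ∈ s, f k x) := by
  classical
  induction s using Finset.induction_on with
  | empty => simp only [Finset.sum_empty]; exact ZE_const 0
  | insert a s ha ih =>
    simp only [Finset.sum_insert ha]
    exact ZE_add (hf a (Finset.mem_insert_self a s)) (ih fun k hk => hf k (Finset.mem_insert_of_mem hk))

lemma ZE_aeval {n : ℕ} {f : MQ n → MQ n} (hf : ZE_PM f) (P : Polynomial ℚ) :
    ZE_PM (fun x => Polynomial.aeval (f x) P) := by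
  have h : (fun x => Polynomial.aeval (f x) P) =
      fun x => ∑ i ∈ Finset.range (P.natDegree + 1), P.coeff i • f x ^ i := by
    funext x
    rw [Polynomial.aeval_eq_sum_range]
  rw [h]
  exact ZE_sum _ _ fun i _ => ZE_smul (ZE_pow hf i) _

/-- membership in a subspace is a polynomial condition -/
lemma ZE_mem {n : ℕ} {f : MQ n → MQ n} (hf : ZE_PM f) (V : Submodule ℚ (MQ n)) (S : Set (MQ n))
    (h : ∀ x ∈ S, f x ∈ V) : ∀ x ∈ ZQ S, f x ∈ V := by
  intro x hx
  by_contra hne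
  obtain ⟨ℓ, hℓ1, hℓ2⟩ := Submodule.exists_le_ker_of_notMem hne
  choose F hF using hf
  have key : ∀ y : MQ n, ℓ (f y) = MvPolynomial.eval (fun a : Fin n × Fin n => y a.1 a.2)
      (∑ i, ∑ j, MvPolynomial.C (ℓ (Matrix.single i j 1)) * F i j) := by
    intro y
    conv_lhs => rw [Matrix.matrix_eq_sum_single (f y)]
    rw [map_sum, map_sum]
    apply Finset.sum_congr rfl
    intro i _
    rw [map_sum, map_sum]
    apply Finset.sum_congr rfl
    intro j _
    rw [map_mul, MvPolynomial.eval_C, hF, mul_comm]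
    have h1 : Matrix.single i j (f y i j) = f y i j • Matrix.single i j (1 : ℚ) := by
      rw [Matrix.smul_single, smul_eq_mul, mul_one]
    rw [h1, map_smul, smul_eq_mul]
  have h2 := hx (∑ i, ∑ j, MvPolynomial.C (ℓ (Matrix.single i j 1)) * F i j) (fun s hs => by
    rw [← key s]
    exact hℓ2 (h s hs))
  rw [← key x] at h2
  exact hℓ1 h2

theorem ZE (hLG : UG.LG_stmt) : ZE_stmt := by
  intro n 𝔲 k W h0 hk hd x hx
  obtain ⟨P, _, hP1, hP2⟩ := hLG n
  have hnil : ∀ X ∈ 𝔲, X ^ k = 0 := by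
    intro X hX
    have h1 : ∀ i, X ^ i ∈ fil W i := by
      intro i
      induction i with
      | zero =>
        intro a w hw
        rw [pow_zero, Matrix.one_mulVec]
        exact hw
      | succ i ih =>
        rw [pow_succ]
        exact fil_mul ih ((mem_fil_one h0).2 (hd X hX))
    have h2 := h1 k
    rw [fil_bot h0 hk] at h2
    exact (Submodule.mem_bot ℚ).1 h2
  have hex : ∀ X ∈ 𝔲, (IsNilpotent.exp X - 1) ^ k = 0 := by
    intro X hX
    have hm := hnil X hX
    rw [IsNilpotent.exp_eq_sum hm]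
    rcases Nat.eq_zero_or_pos k with rfl | hk0
    · rw [pow_zero] at hm ⊢
      exact hm
    · obtain ⟨m', rfl⟩ := Nat.exists_eq_succ_of_ne_zero hk0.ne'
      rw [Finset.sum_range_succ']
      simp only [Nat.factorial_zero, Nat.cast_one, inv_one, pow_zero, one_smul,
        add_sub_cancel_right]
      have h7 : ∑ i ∈ Finset.range m', (((i + 1).factorial : ℚ)⁻¹) • X ^ (i + 1) =
          X * ∑ i ∈ Finset.range m', (((i + 1).factorial : ℚ)⁻¹) • X ^ i := by
        rw [Finset.mul_sum]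
        apply Finset.sum_congr rfl
        intro i _
        rw [mul_smul_comm, pow_succ']
      rw [h7]
      have h8 : Commute X (∑ i ∈ Finset.range m', (((i + 1).factorial : ℚ)⁻¹) • X ^ i) :=
        Commute.sum_right _ _ _ fun i _ => ((Commute.refl X).pow_right i).smul_right _
      rw [h8.mul_pow]
      have h9 : X ^ (m' + 1) = 0 := hm
      rw [show m'.succ = m' + 1 from rfl, h9, zero_mul]
  have hxk : (x - 1) ^ k = 0 := by
    have h1 := ZE_mem (f := fun x : MQ n => (x - 1) ^ k) (ZE_pow (ZE_sub ZE_id (ZE_const 1)) k) ⊥ (Ex 𝔲)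
      (fun y hy => by
        obtain ⟨X, hX, rfl⟩ := hy
        exact (Submodule.mem_bot ℚ).2 (hex X hX)) x hx
    exact (Submodule.mem_bot ℚ).1 h1
  have hmem : Polynomial.aeval (x - 1) P ∈ 𝔲 :=
    ZE_mem (f := fun x : MQ n => Polynomial.aeval (x - 1) P)
      (ZE_aeval (ZE_sub ZE_id (ZE_const 1)) P) 𝔲 (Ex 𝔲) (fun y hy => by
        obtain ⟨X, hX, rfl⟩ := hy
        show Polynomial.aeval (IsNilpotent.exp X - 1) P ∈ 𝔲
        rw [hP2 X ⟨k, hnil X hX⟩]
        exact hX) x hx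
  refine ⟨_, hmem, ?_⟩
  rw [hP1 (x - 1) ⟨k, hxk⟩]
  abel

end Pool.Agent.BS
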